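import Mathlib
import Pool.Agent.Lib.MP_a33b01_co.Final2

set_option autoImplicit false

/-!
# MP_a33b01_co: average availability for planar graphs

Every planar graph with a function which is at least four on every vertex lying on a cycle (and at
least two on the other vertices) can be removed by legal operations `Del` and `DelSave` with
average availability at least `2 ^ (1 / 52)`.
-/

namespace Pool.Agent.Lib.MP_a33b01_co_Old.PlanarFour

open Classical

/-- `Removes G S f L`: all the vertices of `S` can be removed from `G[S]`, one after another, by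
legal operations `Del` and `DelSave`, starting from the function `f`, and `L` is the list of the
availabilities of the operations. -/
inductive Removes {V : Type} (G : SimpleGraph V) : Finset V → (V → ℕ) → List ℕ → Prop
  | nil (f : V → ℕ) : Removes G ∅ f []
  | del (S : Finset V) (f : V → ℕ) (v : V) (L : List ℕ) (hv : v ∈ S)
      (hl : ∀ u ∈ S, G.Adj v u → 1 ≤ f u)
      (h : Removes G (S.erase v) (fun u => if G.Adj v u then f u - 1 else f u) L) :
      Removes G S f ((f v + 1) :: L)
  | save (S : Finset V) (f : V → ℕ) (v w : V) (L : List ℕ) (hv : v ∈ S) (hw : w ∈ S)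
      (hvw : G.Adj v w) (hf : f w < f v) (hl : ∀ u ∈ S, G.Adj v u → u ≠ w → 1 ≤ f u)
      (h : Removes G (S.erase v) (fun u => if G.Adj v u ∧ u ≠ w then f u - 1 else f u) L) :
      Removes G S f ((f v - f w) :: L)

/-- `K` is a minor of `G`: there are pairwise disjoint (nonempty) connected sets of vertices of
`G`, one for every vertex of `K`, with an edge between the sets of adjacent vertices. -/
def HasMinor {V W : Type} (G : SimpleGraph V) (K : SimpleGraph W) : Prop :=
  ∃ B : W → Set V, (∀ i, (G.induce (B i)).Connected) ∧ (∀ i j, i ≠ j → Disjoint (B i) (B j)) ∧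
    ∀ i j, K.Adj i j → ∃ u ∈ B i, ∃ v ∈ B j, G.Adj u v

/-- Planar graphs (Wagner's characterisation): no minor `K₅` and no minor `K₃,₃`. -/
def Planar {V : Type} (G : SimpleGraph V) : Prop :=
  ¬ HasMinor G (⊤ : SimpleGraph (Fin 5)) ∧ ¬ HasMinor G (completeBipartiteGraph (Fin 3) (Fin 3))

theorem removes_of {V : Type} {G : SimpleGraph V} {S : Finset V} {f : V → ℕ} {L : List ℕ}
    (h : Pool.Agent.Lib.MP_a33b01_co.Removes G S f L) : Removes G S f L := by
  induction h with
  | nil f => exact Removes.nil f
  | del S f v L hv hl _ ih => exact Removes.del S f v L hv hl ih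
  | save S f v w L hv hw hvw hf hl _ ih => exact Removes.save S f v w L hv hw hvw hf hl ih

/-- All vertices of every planar graph can be removed legally from every `f ≥ 2` which is at least
four on the vertices lying on a cycle, so that the product of the availabilities is at least
`2 ^ (|V| / 52)`. -/
theorem result (V : Type) [Fintype V] (G : SimpleGraph V) (hG : Planar G) (f : V → ℕ)
    (hf : ∀ v, 2 ≤ f v) (hc : ∀ v, (∃ p : G.Walk v v, p.IsCycle) → 4 ≤ f v) :
    ∃ L : List ℕ, Removes G Finset.univ f L ∧ 2 ^ Fintype.card V ≤ L.prod ^ 52 := by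
  obtain ⟨X, hX, hcard⟩ := Pool.Agent.Lib.MP_a33b01_co.wg_ext G hG _ Finset.univ ∅
    (Pool.Agent.Lib.MP_a33b01_co.bs G) rfl (by simp) (fun v _ => by simp)
  have h4 : ∀ u ∈ (Finset.univ : Finset V), Pool.Agent.Lib.MP_a33b01_co.bs G u ≤ 4 := by
    intro u _
    unfold Pool.Agent.Lib.MP_a33b01_co.bs
    split_ifs <;> norm_num
  have hle : ∀ u ∈ (Finset.univ : Finset V), Pool.Agent.Lib.MP_a33b01_co.bs G u ≤ f u := by
    intro u _
    unfold Pool.Agent.Lib.MP_a33b01_co.bs
    split_ifs with h
    · exact hc u h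
    · exact hf u
  obtain ⟨L, hL, hp⟩ := Pool.Agent.Lib.MP_a33b01_co.removes_prod hX h4 hle
  refine ⟨L, removes_of hL, ?_⟩
  rw [Finset.card_univ] at hcard
  have h1 : ((2 : ℝ) ^ ((X : ℝ) / 4)) ^ 52 ≤ ((L.prod : ℕ) : ℝ) ^ 52 :=
    pow_le_pow_left₀ (by positivity) hp 52
  have h2 : ((2 : ℝ) ^ ((X : ℝ) / 4)) ^ 52 = 2 ^ (13 * X) := by
    rw [← Real.rpow_natCast, ← Real.rpow_mul (by norm_num), ← Real.rpow_natCast]
    congr 1
    push_cast
    ring
  have h3 : (2 : ℝ) ^ Fintype.card V ≤ 2 ^ (13 * X) :=
    pow_le_pow_right₀ (by norm_num) hcard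
  rw [h2] at h1
  exact_mod_cast h3.trans h1

end Pool.Agent.Lib.MP_a33b01_co_Old.PlanarFour
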