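import Mathlib
import Pool.Agent.Lib.MP_a33b01_co_G5.Fin

set_option autoImplicit false

/-!
# MP_a33b01_co: average availability for planar graphs of girth at least five

Every planar graph without cycles of length three and four, with a function which is at least two,
can be removed by legal operations `Del` and `DelSave` with average availability at least
`3 ^ (1 / 24)`.
-/

namespace Pool.Agent.Lib.MP_a33b01_co_Old.PlanarGirthFive

open Classical

/-- `Removes G S f L`: all the vertices of `S` can be removed from `G[S]`, one after another, by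
legal operations `Del` and `DelSave`, starting from the function `f`, and `L` is the list of the
availabilities of the operations. -/
inductive Removes {V : Type} (G : SimpleGraph V) : Finset V → (V → ℕ) → List ℕ → Prop
  | nil (f : V → ℕ) : Removes G ∅ f []
  | del (S : Finset V) (f : V → ℕ) (v : V) (L : List ℕ) (hv : v ∈ S)
      (hl : ∀ u ∈ S, G.Adj v u → 1 ≤ f u)
      (h : Removes G (S.erase v) (fun u => if G.Adj v u then f u - 1 else f u) L) :
      Removes G S f ((f v + 1) :: L)
  | save (S : Finset V) (f : V → ℕ) (v w : V) (L : List ℕ) (hv : v ∈ S) (hw : w ∈ S)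
      (hvw : G.Adj v w) (hf : f w < f v) (hl : ∀ u ∈ S, G.Adj v u → u ≠ w → 1 ≤ f u)
      (h : Removes G (S.erase v) (fun u => if G.Adj v u ∧ u ≠ w then f u - 1 else f u) L) :
      Removes G S f ((f v - f w) :: L)

/-- `K` is a minor of `G`: there are pairwise disjoint (nonempty) connected sets of vertices of
`G`, one for every vertex of `K`, with an edge between the sets of adjacent vertices. -/
def HasMinor {V W : Type} (G : SimpleGraph V) (K : SimpleGraph W) : Prop :=
  ∃ B : W → Set V, (∀ i, (G.induce (B i)).Connected) ∧ (∀ i j, i ≠ j → Disjoint (B i) (B j)) ∧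
    ∀ i j, K.Adj i j → ∃ u ∈ B i, ∃ v ∈ B j, G.Adj u v

/-- Planar graphs (Wagner's characterisation): no minor `K₅` and no minor `K₃,₃`. -/
def Planar {V : Type} (G : SimpleGraph V) : Prop :=
  ¬ HasMinor G (⊤ : SimpleGraph (Fin 5)) ∧ ¬ HasMinor G (completeBipartiteGraph (Fin 3) (Fin 3))

theorem removes_of {V : Type} {G : SimpleGraph V} {S : Finset V} {f : V → ℕ} {L : List ℕ}
    (h : Pool.Agent.Lib.MP_a33b01_co.Removes G S f L) : Removes G S f L := by
  induction h with
  | nil f => exact Removes.nil f
  | del S f v L hv hl _ ih => exact Removes.del S f v L hv hl ih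
  | save S f v w L hv hw hvw hf hl _ ih => exact Removes.save S f v w L hv hw hvw hf hl ih

/-- All vertices of every planar graph without cycles of length less than five can be removed
legally from every `f ≥ 2`, so that the product of the availabilities is at least
`3 ^ (|V| / 24)`. -/
theorem result (V : Type) [Fintype V] (G : SimpleGraph V) (hG : Planar G)
    (h5 : ∀ (v : V) (p : G.Walk v v), p.IsCycle → 5 ≤ p.length) (f : V → ℕ)
    (hf : ∀ v, 2 ≤ f v) :
    ∃ L : List ℕ, Removes G Finset.univ f L ∧ 3 ^ Fintype.card V ≤ L.prod ^ 24 := by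
  have htri : ∀ x y z, G.Adj x y → G.Adj y z → ¬ G.Adj x z := by
    intro x y z h1 h2 h3
    have hc : (SimpleGraph.Walk.cons h1 (SimpleGraph.Walk.cons h2
        (SimpleGraph.Walk.cons h3.symm SimpleGraph.Walk.nil))).IsCycle := by
      simp [SimpleGraph.Walk.isCycle_def, SimpleGraph.Walk.isTrail_def, h1.ne, h2.ne, h3.ne,
        h1.ne.symm, h3.ne.symm]
    have := h5 x _ hc
    simp at this
  have hquad : ∀ x y z w, G.Adj x y → G.Adj y z → G.Adj z w → G.Adj w x → x = z ∨ y = w := by
    intro x y z w h1 h2 h3 h4
    by_contra hcon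
    push Not at hcon
    obtain ⟨hxz, hyw⟩ := hcon
    have hc : (SimpleGraph.Walk.cons h1 (SimpleGraph.Walk.cons h2
        (SimpleGraph.Walk.cons h3 (SimpleGraph.Walk.cons h4 SimpleGraph.Walk.nil)))).IsCycle := by
      simp [SimpleGraph.Walk.isCycle_def, SimpleGraph.Walk.isTrail_def, h1.ne, h2.ne, h3.ne,
        h4.ne, h1.ne.symm, h4.ne.symm, hxz, hyw, hxz.symm]
    have := h5 x _ hc
    simp at this
  obtain ⟨L, hL, hp⟩ := Pool.Agent.Lib.MP_a33b01_co_G5.planar5 G hG htri hquad f hf
  exact ⟨L, removes_of hL, hp⟩

end Pool.Agent.Lib.MP_a33b01_co_Old.PlanarGirthFive
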